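import Pool.Agent.V11321.CL.Prod

/-!
The local limit theorem for the number of contacts.
-/

set_option autoImplicit false

namespace Pool.Agent.V11321.CL

open MeasureTheory Filter Topology
open Pool.Agent.H980R2.Cont (dl tl tot touch)
open Pool.Agent.H988R2.Perc (perc)

theorem tl_anti (n : ℕ) {k l : ℕ} (h : k ≤ l) : tl n l ≤ tl n k := by
  unfold tl
  refine Finset.sum_le_sum_of_subset_of_nonneg (Finset.Icc_subset_Icc_left h) ?_
  intro i hi _
  exact Pool.Agent.H980R2.Cont.T21b_dl_nonneg n i (Finset.mem_Icc.1 hi).2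

/-- the scale -/
noncomputable def rr (n : ℕ) : ℝ := (2*(n:ℝ)+1)^((2:ℝ)/3)

theorem rr_pos (n : ℕ) : 0 < rr n := by unfold rr; positivity

theorem tl_seq (x : ℝ) (hx : 0 ≤ x) (k : ℕ → ℕ)
    (hk : Tendsto (fun n : ℕ => (k n : ℝ) / rr n) atTop (𝓝 x)) :
    Tendsto (fun n : ℕ => tl n (k n) / (2*(n:ℝ)+1)^2) atTop (𝓝 (Real.exp (-x^3) / 3)) := by
  have hcont : Continuous (fun y : ℝ => Real.exp (-y^3) / 3) := by fun_prop
  rw [tendsto_order]
  constructor
  · intro a ha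
    have h1 : ∀ᶠ y in 𝓝[>] x, a < Real.exp (-y^3) / 3 :=
      (hcont.continuousAt.eventually (lt_mem_nhds ha)).filter_mono nhdsWithin_le_nhds
    obtain ⟨y, hy1, hy2⟩ := (h1.and self_mem_nhdsWithin).exists
    have hy2' : x < y := hy2
    have h2 := (Pool.Agent.H980R2.Cont.tl_tendsto y (hx.trans hy2'.le)).eventually (lt_mem_nhds hy1)
    filter_upwards [h2, hk.eventually (gt_mem_nhds hy2')] with n h3 h4
    have hr := rr_pos n
    rw [div_lt_iff₀ hr] at h4
    refine lt_of_lt_of_le h3 ?_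
    refine div_le_div_of_nonneg_right (tl_anti n ?_) (by positivity)
    exact Nat.le_floor h4.le
  · intro a ha
    rcases eq_or_lt_of_le hx with hx0 | hx0
    · subst hx0
      have h2 := (Pool.Agent.H980R2.Cont.tl_tendsto 0 le_rfl).eventually (gt_mem_nhds ha)
      filter_upwards [h2] with n h3
      refine lt_of_le_of_lt ?_ h3
      refine div_le_div_of_nonneg_right (tl_anti n ?_) (by positivity)
      rw [zero_mul, Nat.floor_zero]
      exact Nat.zero_le _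
    · have h1 : ∀ᶠ y in 𝓝[<] x, Real.exp (-y^3) / 3 < a :=
        (hcont.continuousAt.eventually (gt_mem_nhds ha)).filter_mono nhdsWithin_le_nhds
      have h0 : ∀ᶠ y in 𝓝[<] x, 0 < y := (lt_mem_nhds hx0).filter_mono nhdsWithin_le_nhds
      obtain ⟨y, ⟨hy1, hy0⟩, hy2⟩ := ((h1.and h0).and self_mem_nhdsWithin).exists
      have hy2' : y < x := hy2
      have h2 := (Pool.Agent.H980R2.Cont.tl_tendsto y hy0.le).eventually (gt_mem_nhds hy1)
      filter_upwards [h2, hk.eventually (lt_mem_nhds hy2')] with n h3 h4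
      have hr := rr_pos n
      rw [lt_div_iff₀ hr] at h4
      refine lt_of_le_of_lt ?_ h3
      refine div_le_div_of_nonneg_right (tl_anti n ?_) (by positivity)
      have h5 : ((⌊y * (2*(n:ℝ)+1)^((2:ℝ)/3)⌋₊ : ℕ) : ℝ) ≤ k n :=
        (Nat.floor_le (by positivity)).trans h4.le
      exact_mod_cast h5

/-- **the local limit theorem** -/
theorem loc (x : ℝ) (hx : 0 ≤ x) (k : ℕ → ℕ)
    (hk : Tendsto (fun n : ℕ => (k n : ℝ) / (2*(n:ℝ)+1)^((2:ℝ)/3)) atTop (𝓝 x)) :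
    Tendsto (fun n : ℕ => (2*(n:ℝ)+1)^((2:ℝ)/3) *
      perc.real {ω | (touch (2*n+1) ω).ncard = k n}) atTop
      (𝓝 (Real.exp (-x^3) / Real.Gamma (4/3))) := by
  have hG : 0 < Real.Gamma (4/3) := Real.Gamma_pos_of_pos (by norm_num)
  have h1 := (tl_seq x hx k hk).div Pool.Agent.H980R2.Cont.T22.riem0 (by positivity)
  have e : Real.exp (-x^3) / 3 / (Real.Gamma (4/3) / 3) = Real.exp (-x^3) / Real.Gamma (4/3) := by
    field_simp
  rw [e] at h1
  refine h1.congr' ?_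
  have hle : ∀ᶠ n : ℕ in atTop, k n ≤ n := by
    have h2 : Tendsto (fun n : ℕ => (2*(n:ℝ)+1)^((1:ℝ)/3)) atTop atTop :=
      (tendsto_rpow_atTop (by norm_num)).comp
        (tendsto_atTop_add_const_right _ _ (tendsto_natCast_atTop_atTop.const_mul_atTop two_pos))
    filter_upwards [hk.eventually (gt_mem_nhds (show x < x + 1 by linarith)),
      h2.eventually_ge_atTop (3 * (x + 1)), eventually_ge_atTop 1] with n h3 h4 h5
    have hn1 : (1:ℝ) ≤ n := by exact_mod_cast h5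
    have hb : (0:ℝ) < 2*(n:ℝ)+1 := by positivity
    have hr : 0 < (2*(n:ℝ)+1)^((2:ℝ)/3) := Real.rpow_pos_of_pos hb _
    rw [div_lt_iff₀ hr] at h3
    have h6 : (2*(n:ℝ)+1)^((1:ℝ)/3) * (2*(n:ℝ)+1)^((2:ℝ)/3) = 2*(n:ℝ)+1 := by
      rw [← Real.rpow_add hb]; norm_num
    have h7 : 3 * (x + 1) * (2*(n:ℝ)+1)^((2:ℝ)/3) ≤ 2*(n:ℝ)+1 :=
      (mul_le_mul_of_nonneg_right h4 hr.le).trans h6.le
    have h8 : (k n : ℝ) ≤ n := by linarith
    exact_mod_cast h8
  filter_upwards [hle, eventually_ge_atTop 1, Pool.Agent.H980R2.Cont.Mom.tot_pos] with n h3 h4 h5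
  rw [Pool.Agent.H980R2.Cont.main n h4 (k n) h3]
  simp only [Pi.div_apply]
  have hb : (0:ℝ) < 2*(n:ℝ)+1 := by positivity
  have hr : 0 < (2*(n:ℝ)+1)^((2:ℝ)/3) := Real.rpow_pos_of_pos hb _
  field_simp

/-- **the exact law as a product** -/
theorem law {n k : ℕ} (hn : 1 ≤ n) (hk : k ≤ n) :
    perc.real {ω | (touch (2*n+1) ω).ncard = k} =
      1 / 2 * (∏ m ∈ Finset.Icc 1 (n - 1),
        ((2 * (m:ℝ) + 1) * (3 * m + 5)) / ((m + 2) * (6 * m + 5))) *
      ∏ i ∈ Finset.range k,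
        ((2 * (n : ℝ) + 2 * i + 3) * (2 * n - 2 * i)) / ((2 * n - i) * (2 * n + i + 3)) := by
  rw [Pool.Agent.H980R2.Cont.main n hn k hk, law_prod hn hk]
  rfl

end Pool.Agent.V11321.CL
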