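import Pool.Agent.H980R2.Cont.Main
import Pool.Agent.H980R2.Cont.Mom

/-!
The exact law of the number of contacts as a product (creative telescoping), and the local limit
theorem.
-/

set_option autoImplicit false

namespace Pool.Agent.V11321.CL

open MeasureTheory Filter Topology
open Pool.Agent.H980R2.Cont (dl tl tot)

/-- ratio of consecutive probabilities -/
noncomputable def rho (n i : ℕ) : ℝ :=
  ((2 * (n : ℝ) + 2 * i + 3) * (2 * n - 2 * i)) / ((2 * n - i) * (2 * n + i + 3))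

/-- the products -/
noncomputable def FF (n k : ℕ) : ℝ := ∏ i ∈ Finset.range k, rho n i

theorem FF_succ (n k : ℕ) : FF n (k + 1) = FF n k * rho n k := Finset.prod_range_succ _ _

theorem FF_zero (n : ℕ) : FF n 0 = 1 := Finset.prod_range_zero _

theorem rho_zero {n : ℕ} (hn : 1 ≤ n) : rho n 0 = 1 := by
  have hn0 : (0:ℝ) < n := by exact_mod_cast hn
  unfold rho
  push_cast
  have : (2 * (n:ℝ) - 0) * (2 * n + 0 + 3) ≠ 0 := by
    have h1 : (0:ℝ) < 2 * (n:ℝ) - 0 := by linarith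
    positivity
  rw [div_eq_one_iff_eq this]
  ring

theorem rho_self (n : ℕ) : rho n n = 0 := by
  unfold rho
  rw [sub_self, mul_zero, zero_div]

/-- the terms -/
theorem dl_eq {n : ℕ} (k : ℕ) (h1 : 1 ≤ k) (hk : k ≤ n) : dl n k =
    (2 * (2 * (n : ℝ) - 1) * (n + 2) / 3) * (FF n k * (3 * k * (k + 1) /
      ((2 * n - k) * (2 * n + k + 3)))) := by
  induction k, h1 using Nat.le_induction with
  | base =>
    have hn0 : (1:ℝ) ≤ n := by exact_mod_cast hk
    have h2 : (2 * (n:ℝ) - 1) ≠ 0 := by linarith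
    have h3 : (2 * (n:ℝ) + 1 + 3) ≠ 0 := by positivity
    have e0 : dl n 1 = 2 := by
      unfold dl
      norm_num
    rw [FF_succ, FF_zero, rho_zero hk, e0]
    push_cast
    field_simp
    ring
  | succ k h1 ih =>
    have ih' := ih (by omega)
    have hk' : (k:ℝ) + 1 ≤ n := by exact_mod_cast hk
    have hk1 : (1:ℝ) ≤ k := by exact_mod_cast h1
    have e : dl n (k + 1) = dl n k * ((k + 2) / k * ((2 * (2 * (n:ℝ) + 2 * k + 3) * (n - k)) /
        ((2 * n - k - 1) * (2 * n + k + 4)))) := by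
      unfold dl
      rw [Nat.add_sub_cancel, show k = (k - 1) + 1 by omega, Finset.prod_Icc_succ_top (by omega)]
      rw [show k - 1 + 1 = k by omega]
      push_cast
      have h5 : (k:ℝ) ≠ 0 := by positivity
      field_simp
      ring
    rw [e, ih', FF_succ]
    unfold rho
    push_cast
    have h2 : (2 * (n:ℝ) - k) ≠ 0 := by linarith
    have h3 : (2 * (n:ℝ) - k - 1) ≠ 0 := by linarith
    have h4 : (2 * (n:ℝ) + k + 3) ≠ 0 := by positivity
    have h5 : (2 * (n:ℝ) + k + 4) ≠ 0 := by positivity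
    have h6 : (k:ℝ) ≠ 0 := by positivity
    have h7 : (2 * (n:ℝ) - (k + 1)) ≠ 0 := by linarith
    have h8 : (2 * (n:ℝ) + (k + 1) + 3) ≠ 0 := by positivity
    have e7 : (2 * (n:ℝ) - (k + 1)) = 2 * (n:ℝ) - k - 1 := by ring
    have e8 : (2 * (n:ℝ) + (k + 1) + 3) = 2 * (n:ℝ) + k + 4 := by ring
    rw [e7, e8]
    field_simp
    ring

theorem dl_diff {n k : ℕ} (h1 : 1 ≤ k) (hk : k ≤ n) : dl n k =
    (2 * (2 * (n : ℝ) - 1) * (n + 2) / 3) * (FF n k - FF n (k + 1)) := by
  rw [dl_eq k h1 hk, FF_succ]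
  have hk' : (k:ℝ) ≤ n := by exact_mod_cast hk
  have hk1 : (1:ℝ) ≤ k := by exact_mod_cast h1
  have h2 : (2 * (n:ℝ) - k) ≠ 0 := by linarith
  have h4 : (2 * (n:ℝ) + k + 3) ≠ 0 := by positivity
  congr 1
  unfold rho
  field_simp
  ring

theorem FF_top (n : ℕ) : FF n (n + 1) = 0 := by rw [FF_succ, rho_self, mul_zero]

/-- the tails -/
theorem tl_eq {n : ℕ} (hn : 1 ≤ n) {k : ℕ} (hk : k ≤ n) : tl n k =
    (2 * (2 * (n : ℝ) - 1) * (n + 2) / 3) * FF n k := by
  have key : ∀ k, 1 ≤ k → k ≤ n → tl n k = (2 * (2 * (n : ℝ) - 1) * (n + 2) / 3) * FF n k := by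
    intro k h1 hk
    unfold tl
    rw [Finset.sum_congr rfl (fun s hs => dl_diff (h1.trans (Finset.mem_Icc.1 hs).1)
      (Finset.mem_Icc.1 hs).2), ← Finset.mul_sum]
    congr 1
    have h2 : Finset.Icc k n = Finset.Ico k (n + 1) := by
      ext s
      simp only [Finset.mem_Icc, Finset.mem_Ico]
      omega
    have h3 := Finset.sum_Ico_sub (fun s => - FF n s) (show k ≤ n + 1 by omega)
    rw [h2]
    rw [FF_top] at h3
    have h4 : ∀ s, FF n s - FF n (s + 1) = - FF n (s + 1) - - FF n s := by intro s; ring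
    rw [Finset.sum_congr rfl (fun s _ => h4 s), h3]
    ring
  rcases Nat.eq_zero_or_pos k with h | h
  · subst h
    have h1 : tl n 0 = tl n 1 := by
      unfold tl
      rw [show Finset.Icc 0 n = insert 0 (Finset.Icc 1 n) by
        ext s; simp only [Finset.mem_insert, Finset.mem_Icc]; omega,
        Finset.sum_insert (by simp)]
      have : dl n 0 = 0 := by unfold dl; simp
      rw [this, zero_add]
    rw [h1, key 1 le_rfl hn, FF_succ, FF_zero, rho_zero hn, mul_one]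
  · exact key k h hk

/-- the sum of the products -/
noncomputable def SS (n : ℕ) : ℝ := ∑ k ∈ Finset.range (n + 1), FF n k

theorem tot_eq {n : ℕ} (hn : 1 ≤ n) : tot n =
    (2 * (2 * (n : ℝ) - 1) * (n + 2) / 3) * SS n := by
  unfold tot SS
  rw [Finset.mul_sum]
  refine Finset.sum_congr rfl fun k hk => tl_eq hn ?_
  have := Finset.mem_range.1 hk
  omega

/-- the ratio lemma -/
theorem ratio {n : ℕ} (hn : 1 ≤ n) (k : ℕ) (hk : k ≤ n) :
    FF (n + 1) k * (((n:ℝ) - k + 1) * (2 * n + 1) * (2 * n + k + 3) * (2 * n + k + 4)) =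
      (2 * (n:ℝ) + 2 * k + 3) * (2 * n - k + 2) * (2 * n - k + 1) * (n + 2) * FF n k := by
  induction k with
  | zero =>
    rw [FF_zero, FF_zero]
    push_cast
    ring
  | succ k ih =>
    have ih' := ih (by omega)
    have hk' : (k:ℝ) + 1 ≤ n := by exact_mod_cast hk
    have hk0 : (0:ℝ) ≤ k := Nat.cast_nonneg k
    rw [FF_succ, FF_succ]
    have h2 : (2 * (n:ℝ) - k) ≠ 0 := by linarith
    have h2' : (2 * (n:ℝ) - k + 2) ≠ 0 := by linarith
    have h4 : (2 * (n:ℝ) + k + 3) ≠ 0 := by positivity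
    have h4' : (2 * (n:ℝ) + k + 5) ≠ 0 := by positivity
    have e1 : rho (n + 1) k = ((2 * (n:ℝ) + 2 * k + 5) * (2 * (n - k + 1))) /
        ((2 * (n:ℝ) - k + 2) * (2 * n + k + 5)) := by
      unfold rho
      push_cast
      congr 1 <;> ring
    have e2 : rho n k = ((2 * (n : ℝ) + 2 * k + 3) * (2 * (n - k))) /
        ((2 * n - k) * (2 * n + k + 3)) := by
      unfold rho
      congr 1
      ring
    rw [e1, e2]
    push_cast
    have e3 : FF (n + 1) k * (((2 * (n:ℝ) + 2 * k + 5) * (2 * (n - k + 1))) /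
        ((2 * (n:ℝ) - k + 2) * (2 * n + k + 5))) * (((n:ℝ) - (k + 1) + 1) * (2 * n + 1) *
        (2 * n + (k + 1) + 3) * (2 * n + (k + 1) + 4)) =
        (FF (n + 1) k * (((n:ℝ) - k + 1) * (2 * n + 1) * (2 * n + k + 3) * (2 * n + k + 4))) *
        ((2 * (n:ℝ) + 2 * k + 5) * (2 * (n - k)) / ((2 * (n:ℝ) - k + 2) * (2 * n + k + 3))) := by
      field_simp
      ring
    rw [e3, ih']
    field_simp
    ring

/-- the partial sums of the telescoping -/
theorem partial_sum {n : ℕ} (hn : 1 ≤ n) (k : ℕ) (hk : k ≤ n) :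
    ∑ j ∈ Finset.range (k + 1), ((2 * (n:ℝ) + 1) * (3 * n + 5) * FF (n + 1) j -
      (n + 2) * (6 * n + 5) * FF n j) =
    -(2 * (2 * (n:ℝ) + 2 * k + 3) * (n + 2) * (4 * n + 5) * (k + 1)) /
      ((2 * n + k + 3) * (2 * n + k + 4)) * FF n k := by
  induction k with
  | zero =>
    rw [Finset.sum_range_succ, Finset.sum_range_zero, FF_zero, FF_zero]
    push_cast
    have h4 : (2 * (n:ℝ) + 0 + 3) ≠ 0 := by positivity
    have h5 : (2 * (n:ℝ) + 0 + 4) ≠ 0 := by positivity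
    rw [zero_add, mul_one, mul_one, mul_one, div_eq_mul_inv, mul_inv]
    field_simp
    ring
  | succ k ih =>
    have ih' := ih (by omega)
    have hk' : (k:ℝ) + 1 ≤ n := by exact_mod_cast hk
    have hk0 : (0:ℝ) ≤ k := Nat.cast_nonneg k
    rw [Finset.sum_range_succ, ih']
    have hr := ratio hn (k + 1) hk
    push_cast at hr ⊢
    have hnk : ((n:ℝ) - k) ≠ 0 := by
      have : (0:ℝ) < (n:ℝ) - k := by linarith
      exact this.ne'
    have h1 : (2 * (n:ℝ) + 1) ≠ 0 := by positivity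
    have h2 : (2 * (n:ℝ) - k) ≠ 0 := by linarith
    have h3 : (2 * (n:ℝ) + k + 3) ≠ 0 := by positivity
    have h4 : (2 * (n:ℝ) + k + 4) ≠ 0 := by positivity
    have h5 : (2 * (n:ℝ) + k + 5) ≠ 0 := by positivity
    have h6 : (2 * (n:ℝ) + 2 * k + 3) ≠ 0 := by positivity
    -- express everything with f = FF n (k+1)
    obtain ⟨f, hf⟩ : ∃ f, f = FF n (k + 1) := ⟨_, rfl⟩
    have e1 : FF (n + 1) (k + 1) = ((2 * (n:ℝ) + 2 * k + 5) * (2 * n - k + 1) * (2 * n - k) *
        (n + 2) * f) / ((n - k) * (2 * n + 1) * (2 * n + k + 4) * (2 * n + k + 5)) := by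
      rw [eq_div_iff (by positivity), hf]
      have e2 : ((n:ℝ) - (k + 1) + 1) = n - k := by ring
      have e3 : (2 * (n:ℝ) + (k + 1) + 3) = 2 * n + k + 4 := by ring
      have e4 : (2 * (n:ℝ) + (k + 1) + 4) = 2 * n + k + 5 := by ring
      have e5 : (2 * (n:ℝ) + 2 * (k + 1) + 3) = 2 * n + 2 * k + 5 := by ring
      have e6 : (2 * (n:ℝ) - (k + 1) + 2) = 2 * n - k + 1 := by ring
      have e7 : (2 * (n:ℝ) - (k + 1) + 1) = 2 * n - k := by ring
      rw [e2, e3, e4, e5, e6, e7] at hr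
      exact hr
    have e8 : FF n k = f * ((2 * n - k) * (2 * n + k + 3)) /
        ((2 * (n : ℝ) + 2 * k + 3) * (2 * (n - k))) := by
      rw [eq_div_iff (by positivity), hf, FF_succ]
      unfold rho
      field_simp
    rw [e1, e8, ← hf]
    have e4 : (2 * (n:ℝ) + (k + 1) + 3) = 2 * n + k + 4 := by ring
    have e5 : (2 * (n:ℝ) + (k + 1) + 4) = 2 * n + k + 5 := by ring
    rw [e4, e5]
    field_simp
    ring

/-- the recursion -/
theorem SS_rec {n : ℕ} (hn : 1 ≤ n) :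
    (2 * (n:ℝ) + 1) * (3 * n + 5) * SS (n + 1) = (n + 2) * (6 * n + 5) * SS n := by
  have h := partial_sum hn n le_rfl
  rw [Finset.sum_sub_distrib, ← Finset.mul_sum, ← Finset.mul_sum] at h
  have hr := ratio hn n le_rfl
  unfold SS
  rw [Finset.sum_range_succ (n := n + 1), FF_succ (n + 1) n]
  have e1 : rho (n + 1) n = (2 * (4 * (n:ℝ) + 5)) / ((n + 2) * (3 * n + 5)) := by
    unfold rho
    push_cast
    congr 1 <;> ring
  have h1 : (2 * (n:ℝ) + 1) ≠ 0 := by positivity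
  have h2 : (3 * (n:ℝ) + 3) ≠ 0 := by positivity
  have h3 : (3 * (n:ℝ) + 4) ≠ 0 := by positivity
  have h4 : (3 * (n:ℝ) + 5) ≠ 0 := by positivity
  have h5 : ((n:ℝ) + 2) ≠ 0 := by positivity
  have e2 : FF (n + 1) n = ((4 * (n:ℝ) + 3) * (n + 2) * (n + 1) * (n + 2) * FF n n) /
      ((2 * n + 1) * (3 * n + 3) * (3 * n + 4)) := by
    rw [eq_div_iff (by positivity)]
    have e3 : ((n:ℝ) - n + 1) = 1 := by ring
    have e4 : (2 * (n:ℝ) + n + 3) = 3 * n + 3 := by ring
    have e5 : (2 * (n:ℝ) + n + 4) = 3 * n + 4 := by ring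
    have e6 : (2 * (n:ℝ) + 2 * n + 3) = 4 * n + 3 := by ring
    have e7 : (2 * (n:ℝ) - n + 2) = n + 2 := by ring
    have e8 : (2 * (n:ℝ) - n + 1) = n + 1 := by ring
    rw [e3, e4, e5, e6, e7, e8, one_mul] at hr
    exact hr
  have e9 : (2 * (2 * (n:ℝ) + 2 * n + 3) * (n + 2) * (4 * n + 5) * (n + 1)) /
      ((2 * n + n + 3) * (2 * n + n + 4)) * FF n n =
      (2 * (n:ℝ) + 1) * (3 * n + 5) * (FF (n + 1) n * rho (n + 1) n) := by
    rw [e1, e2]
    have e4 : (2 * (n:ℝ) + n + 3) = 3 * n + 3 := by ring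
    have e5 : (2 * (n:ℝ) + n + 4) = 3 * n + 4 := by ring
    rw [e4, e5]
    field_simp
    ring
  rw [neg_div, neg_mul, e9] at h
  linarith

/-- the probability that there is no contact -/
noncomputable def pz (n : ℕ) : ℝ := 1 / 2 * ∏ m ∈ Finset.Icc 1 (n - 1),
  ((2 * (m:ℝ) + 1) * (3 * m + 5)) / ((m + 2) * (6 * m + 5))

theorem SS_pz {n : ℕ} (hn : 1 ≤ n) : SS n * pz n = 1 := by
  induction n, hn using Nat.le_induction with
  | base =>
    unfold SS pz
    rw [Finset.sum_range_succ, Finset.sum_range_succ, Finset.sum_range_zero, FF_succ, FF_zero,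
      rho_zero le_rfl]
    simp
    norm_num
  | succ n hn ih =>
    have h := SS_rec hn
    have e : pz (n + 1) = pz n * (((2 * (n:ℝ) + 1) * (3 * n + 5)) / ((n + 2) * (6 * n + 5))) := by
      unfold pz
      rw [Nat.add_sub_cancel, show n = (n - 1) + 1 by omega, Finset.prod_Icc_succ_top (by omega)]
      rw [show n - 1 + 1 = n by omega]
      ring
    rw [e]
    have h1 : ((n:ℝ) + 2) * (6 * n + 5) ≠ 0 := by positivity
    calc SS (n + 1) * (pz n * (((2 * (n:ℝ) + 1) * (3 * n + 5)) / ((n + 2) * (6 * n + 5)))) =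
        ((2 * (n:ℝ) + 1) * (3 * n + 5) * SS (n + 1)) * pz n / ((n + 2) * (6 * n + 5)) := by
          field_simp
      _ = (n + 2) * (6 * n + 5) * (SS n * pz n) / ((n + 2) * (6 * n + 5)) := by rw [h]; ring
      _ = 1 := by rw [ih, mul_one, div_self h1]

/-- **the product formula** -/
theorem law_prod {n : ℕ} (hn : 1 ≤ n) {k : ℕ} (hk : k ≤ n) :
    tl n k / tot n = pz n * FF n k := by
  have h1 := SS_pz hn
  have h2 : SS n ≠ 0 := left_ne_zero_of_mul_eq_one h1
  have hn0 : (1:ℝ) ≤ n := by exact_mod_cast hn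
  have h3 : (2 * (2 * (n : ℝ) - 1) * (n + 2) / 3) ≠ 0 := by
    have : (0:ℝ) < 2 * (n:ℝ) - 1 := by linarith
    positivity
  rw [tl_eq hn hk, tot_eq hn, mul_div_mul_left _ _ h3, div_eq_iff h2]
  calc FF n k = FF n k * 1 := by ring
    _ = FF n k * (SS n * pz n) := by rw [h1]
    _ = _ := by ring

end Pool.Agent.V11321.CL
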